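import Mathlib
import Pool.Agent.X231.CS.Main
import Pool.Agent.X231.CS.Conv

set_option autoImplicit false

/-!
# Every spectrum of the first factor of a type II pair has a complementary spectrum of the second

Let `N = (N_k)_{k ≥ 1}` be integers `≥ 2` and let `ν_k` be uniform on the points
`j / (N_1 ⋯ N_k)`, `0 ≤ j < N_k`. For the type II pair `μ = ν_1 ∗ ν_3 ∗ ⋯`, `ν = ν_2 ∗ ν_4 ∗ ⋯`
and for **every** spectrum `A` of `μ` there is a spectrum `B` of `ν` with `A ⊕ B = ℤ`.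
-/

namespace Pool.Agent.Results.MP_47966f_an.ComplementarySpectra

open Filter Topology MeasureTheory
open scoped Real ComplexConjugate ENNReal
open Pool.Agent.X231.CS (D D_succ D_zero D_pos two_pow_le m P pc)
open Pool.Agent.X212.Spec (ex F)

/-- `ν_k`: the uniform probability measure on the points `j / (N_1 N_2 ⋯ N_k)`, `0 ≤ j < N_k`. -/
noncomputable def nuK (N : ℕ → ℕ) (k : ℕ) : Measure ℝ :=
  (N k : ℝ≥0∞)⁻¹ • ∑ j ∈ Finset.range (N k),
    Measure.dirac ((j : ℝ) / ∏ i ∈ Finset.Icc 1 k, (N i : ℝ))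

/-- The partial convolution `ρ 0 ∗ ρ 1 ∗ ⋯ ∗ ρ (n - 1)` (the point mass at `0` for `n = 0`). -/
noncomputable def partialConv (ρ : ℕ → Measure ℝ) : ℕ → Measure ℝ
  | 0 => Measure.dirac 0
  | n + 1 => partialConv ρ n ∗ ρ n

/-- `μ` is the infinite convolution `ρ 0 ∗ ρ 1 ∗ ⋯`: a probability measure which is the weak limit
of the partial convolutions. -/
def IsInfConv (ρ : ℕ → Measure ℝ) (μ : Measure ℝ) : Prop :=
  IsProbabilityMeasure μ ∧ ∀ f : ℝ → ℝ, Continuous f → (∃ C : ℝ, ∀ x, |f x| ≤ C) →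
    Tendsto (fun n => ∫ x, f x ∂(partialConv ρ n)) atTop (𝓝 (∫ x, f x ∂μ))

/-- `(μ, ν)` is the type II pair of `N = (N_k)_{k ≥ 1}`, `N_k ≥ 2`:
`μ = ν_1 ∗ ν_3 ∗ ν_5 ∗ ⋯` and `ν = ν_2 ∗ ν_4 ∗ ν_6 ∗ ⋯`. -/
def IsTypeII (N : ℕ → ℕ) (μ ν : Measure ℝ) : Prop :=
  (∀ k, 1 ≤ k → 2 ≤ N k) ∧ IsInfConv (fun i => nuK N (2 * i + 1)) μ ∧
    IsInfConv (fun i => nuK N (2 * i + 2)) ν

/-- `e(x) = exp(2πix)`. -/
noncomputable def e (x : ℝ) : ℂ := Complex.exp (2 * π * Complex.I * (x : ℂ))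

/-- `A` is a spectrum of `ρ`: `A` is countable and the functions `e(ax)`, `a ∈ A`, are an
orthonormal basis of `L²(ρ)`, that is, they are orthonormal, and a function in `L²(ρ)` orthogonal
to all of them vanishes `ρ`-almost everywhere. -/
def IsSpectrum (ρ : Measure ℝ) (A : Set ℝ) : Prop :=
  A.Countable ∧
  (∀ a ∈ A, ∀ b ∈ A, (a = b → ∫ x, e (a * x) * conj (e (b * x)) ∂ρ = 1) ∧
    (a ≠ b → ∫ x, e (a * x) * conj (e (b * x)) ∂ρ = 0)) ∧
  ∀ f : ℝ → ℂ, MemLp f 2 ρ → (∀ a ∈ A, ∫ x, f x * conj (e (a * x)) ∂ρ = 0) → f =ᵐ[ρ] 0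

/-- `A ⊕ B = ℤ`: all sums `a + b` are integers, and every integer has exactly one representation
`a + b` with `a ∈ A`, `b ∈ B`. -/
def SumIsZ (A B : Set ℝ) : Prop :=
  (∀ a ∈ A, ∀ b ∈ B, ∃ z : ℤ, a + b = z) ∧
  ∀ z : ℤ, ∃! q : ℝ × ℝ, q.1 ∈ A ∧ q.2 ∈ B ∧ q.1 + q.2 = z

section Aux


theorem prod_Icc (N : ℕ → ℕ) (k : ℕ) :
    ∏ i ∈ Finset.Icc 1 k, (N i : ℝ) = D (fun i => N (i + 1)) k := by
  induction k with
  | zero => simp [D_zero]
  | succ k ih =>
    rw [Finset.prod_Icc_succ_top (by omega), ih, D_succ]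
    push_cast
    rfl

theorem nuK_prob {N : ℕ → ℕ} {k : ℕ} (hk : 2 ≤ N k) : IsProbabilityMeasure (nuK N k) := by
  constructor
  unfold nuK
  rw [Measure.smul_apply, Measure.finsetSum_apply]
  simp only [measure_univ, Finset.sum_const, Finset.card_range, nsmul_eq_mul, mul_one,
    smul_eq_mul]
  refine ENNReal.inv_mul_cancel ?_ (ENNReal.natCast_ne_top _)
  have : N k ≠ 0 := by omega
  exact_mod_cast this

theorem F_nuK (N : ℕ → ℕ) (k : ℕ) (ξ : ℝ) : F (nuK N (k + 1)) ξ = m (fun i => N (i + 1)) k ξ := by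
  unfold nuK
  rw [Pool.Agent.X212.Spec.F_smul, Pool.Agent.X212.Spec.F_sum]
  unfold m
  rw [div_eq_inv_mul]
  congr 1
  · simp
  · refine Finset.sum_congr rfl fun j _ => ?_
    unfold F
    rw [integral_dirac, prod_Icc]

theorem nuK_bound {N : ℕ → ℕ} (hN : ∀ k, 1 ≤ k → 2 ≤ N k) (k : ℕ) :
    ∀ᵐ x ∂(nuK N (k + 1)), |x| ≤ (1 / 2 : ℝ) ^ k := by
  unfold nuK
  refine Measure.ae_smul_measure ?_ _
  rw [ae_finsetSum_measure_iff]
  intro j hj
  rw [Finset.mem_range] at hj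
  have hN' : ∀ i, 2 ≤ (fun i => N (i + 1)) i := fun i => hN (i + 1) (by omega)
  rw [ae_dirac_iff (measurableSet_le (by fun_prop) (by fun_prop)), prod_Icc]
  have h1 : (0 : ℝ) < D (fun i => N (i + 1)) k := by exact_mod_cast D_pos _ hN' k
  have h2 : (0 : ℝ) < N (k + 1) := by
    have := hN (k + 1) (by omega)
    exact_mod_cast (by omega : 0 < N (k + 1))
  have h3 : ((2 : ℝ) ^ k) ≤ D (fun i => N (i + 1)) k := by exact_mod_cast two_pow_le _ hN' k
  rw [abs_of_nonneg (by positivity), D_succ]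
  push_cast
  have h4 : (j : ℝ) ≤ N (k + 1) := by exact_mod_cast hj.le
  calc (j : ℝ) / ((D (fun i => N (i + 1)) k : ℝ) * (N (k + 1) : ℝ))
      ≤ (N (k + 1) : ℝ) / ((D (fun i => N (i + 1)) k : ℝ) * (N (k + 1) : ℝ)) := by gcongr
    _ = 1 / (D (fun i => N (i + 1)) k : ℝ) := by field_simp
    _ ≤ 1 / 2 ^ k := one_div_le_one_div_of_le (by positivity) h3
    _ = (1 / 2 : ℝ) ^ k := by rw [one_div_pow]

theorem partialConv_eq (ρ : ℕ → Measure ℝ) (n : ℕ) : partialConv ρ n = pc ρ n := by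
  induction n with
  | zero => rfl
  | succ n ih =>
    show partialConv ρ n ∗ ρ n = pc ρ n ∗ ρ n
    rw [ih]

theorem isInfConv_iff (ρ : ℕ → Measure ℝ) (μ : Measure ℝ) :
    IsInfConv ρ μ ↔ Pool.Agent.X231.CS.IsWeakLim (pc ρ) μ := by
  unfold IsInfConv Pool.Agent.X231.CS.IsWeakLim
  simp only [partialConv_eq]

theorem half_pow_le {i j : ℕ} (h : i ≤ j) : (1 / 2 : ℝ) ^ j ≤ (1 / 2) ^ i :=
  pow_le_pow_of_le_one (by norm_num) (by norm_num) h

theorem isSpectrum_iff (ρ : Measure ℝ) [IsProbabilityMeasure ρ] (A : Set ℝ) :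
    IsSpectrum ρ A ↔ A.Countable ∧ Pool.Agent.X212.Spec.IsSpectrum ρ A := by
  have he : ∀ x, e x = ex x := fun _ => rfl
  unfold IsSpectrum Pool.Agent.X212.Spec.IsSpectrum
  simp only [he]
  refine ⟨fun h => ⟨h.1, fun a ha b hb hne => (h.2.1 a ha b hb).2 hne, h.2.2⟩,
    fun h => ⟨h.1, fun a ha b hb => ⟨fun hab => ?_, h.2.1 a ha b hb⟩, h.2.2⟩⟩
  subst hab
  have h1 : ∀ x : ℝ, ex (a * x) * conj (ex (a * x)) = 1 := by
    intro x
    rw [← Pool.Agent.X212.Spec.ex_sub, sub_self, Pool.Agent.X212.Spec.ex_zero]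
  simp [h1]

end Aux

/-- **Main theorem.** The type II pair exists for every `N`, and for every type II pair `(μ, ν)`
every spectrum of `μ` has a complementary spectrum of `ν`. -/
theorem result :
    (∀ N : ℕ → ℕ, (∀ k, 1 ≤ k → 2 ≤ N k) → ∃ μ ν : Measure ℝ, IsTypeII N μ ν) ∧
    ∀ (N : ℕ → ℕ) (μ ν : Measure ℝ), IsTypeII N μ ν →
      ∀ A : Set ℝ, IsSpectrum μ A → ∃ B : Set ℝ, IsSpectrum ν B ∧ SumIsZ A B := by
  constructor
  · intro N hN
    have hp1 : ∀ i, IsProbabilityMeasure (nuK N (2 * i + 1)) := fun i => nuK_prob (hN _ (by omega))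
    have hp2 : ∀ i, IsProbabilityMeasure (nuK N (2 * i + 2)) := fun i => nuK_prob (hN _ (by omega))
    obtain ⟨μ, hμ⟩ := Pool.Agent.X231.CS.exists_lim (fun i => nuK N (2 * i + 1)) (by
      intro i
      filter_upwards [nuK_bound hN (2 * i)] with x hx
      exact hx.trans (half_pow_le (by omega)))
    obtain ⟨ν, hν⟩ := Pool.Agent.X231.CS.exists_lim (fun i => nuK N (2 * i + 2)) (by
      intro i
      filter_upwards [nuK_bound hN (2 * i + 1)] with x hx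
      exact hx.trans (half_pow_le (by omega)))
    exact ⟨μ, ν, hN, (isInfConv_iff _ _).2 hμ, (isInfConv_iff _ _).2 hν⟩
  · rintro N μ ν ⟨hN, hμ, hν⟩ A hA
    rw [isInfConv_iff] at hμ hν
    have hp1 : ∀ i, IsProbabilityMeasure (nuK N (2 * i + 1)) := fun i => nuK_prob (hN _ (by omega))
    have hp2 : ∀ i, IsProbabilityMeasure (nuK N (2 * i + 2)) := fun i => nuK_prob (hN _ (by omega))
    have hμp := hμ.1
    have hνp := hν.1
    have hN' : ∀ i, 2 ≤ (fun i => N (i + 1)) i := fun i => hN (i + 1) (by omega)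
    have h1 : ∀ ξ, Tendsto (fun n => P (fun i => N (i + 1)) (fun i => 2 * i) n ξ) atTop
        (𝓝 (F μ ξ)) := by
      intro ξ
      have h := Pool.Agent.X231.CS.tendsto_F
        (fun n => Pool.Agent.X231.CS.pc_prob (fun i => nuK N (2 * i + 1)) n) hμ ξ
      refine h.congr fun n => ?_
      rw [Pool.Agent.X231.CS.F_pc]
      unfold P
      exact Finset.prod_congr rfl fun i _ => F_nuK N (2 * i) ξ
    have h2 : ∀ ξ, Tendsto (fun n => P (fun i => N (i + 1)) Pool.Agent.X231.CS.pn n ξ) atTop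
        (𝓝 (F ν ξ)) := by
      intro ξ
      have h := Pool.Agent.X231.CS.tendsto_F
        (fun n => Pool.Agent.X231.CS.pc_prob (fun i => nuK N (2 * i + 2)) n) hν ξ
      refine h.congr fun n => ?_
      rw [Pool.Agent.X231.CS.F_pc]
      unfold P
      exact Finset.prod_congr rfl fun i _ => F_nuK N (2 * i + 1) ξ
    rw [isSpectrum_iff] at hA
    obtain ⟨B, hB1, hB2, hB3, hB4⟩ := Pool.Agent.X231.CS.main hN' μ ν h1 h2 A hA.2
    exact ⟨B, (isSpectrum_iff ν B).2 ⟨hB1, hB2⟩, hB3, hB4⟩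

end Pool.Agent.Results.MP_47966f_an.ComplementarySpectra
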